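import Mathlib

/-!
# Divisors of Fermat numbers with a prescribed index
-/

namespace Pool.Agent.helper76.Fer

/-- If `q - 1` divides `m + 1` for every odd prime `q ≤ Q`, then every divisor `> 1` of the
`m`-th Fermat number is larger than `Q * 2 ^ (m + 1)`. -/
theorem divisor_large {m Q : ℕ} (hm : 1 < m)
    (h : ∀ q : ℕ, q.Prime → q ≠ 2 → q ≤ Q → q - 1 ∣ m + 1) {d : ℕ} (hd1 : 1 < d)
    (hd : d ∣ 2 ^ 2 ^ m + 1) : Q * 2 ^ (m + 1) < d := by
  obtain ⟨p, hp, hpd⟩ := Nat.exists_prime_and_dvd (by omega : d ≠ 1)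
  have hpF : p ∣ Nat.fermatNumber m := by
    rw [Nat.fermatNumber]; exact hpd.trans hd
  obtain ⟨k, hk⟩ := Nat.fermat_primeFactors_one_lt m p hm hp hpF
  have hk0 : 0 < k := by
    rcases Nat.eq_zero_or_pos k with h0 | h0
    · exfalso; rw [h0] at hk; simp at hk; exact hp.one_lt.ne' hk
    · exact h0
  have hple : p ≤ d := Nat.le_of_dvd (by omega) hpd
  have hQ : Q < 2 * k + 1 := by
    by_contra hcon
    push Not at hcon
    obtain ⟨q, hq, hqk⟩ := Nat.exists_prime_and_dvd (by omega : 2 * k + 1 ≠ 1)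
    have hq2 : q ≠ 2 := by
      rintro rfl
      omega
    have hqQ : q ≤ Q := (Nat.le_of_dvd (by omega) hqk).trans hcon
    have hdv := h q hq hq2 hqQ
    have := Fact.mk hq
    have h2 : (2 : ZMod q) ≠ 0 := by
      intro h0
      have : (q : ℕ) ∣ 2 := by
        rw [← ZMod.natCast_eq_zero_iff]; exact_mod_cast h0
      have := (Nat.prime_dvd_prime_iff_eq hq Nat.prime_two).mp this
      exact hq2 this
    have h3 : (2 : ZMod q) ^ (m + 1) = 1 := by
      obtain ⟨t, ht⟩ := hdv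
      rw [ht, pow_mul, ZMod.pow_card_sub_one_eq_one h2, one_pow]
    have h4 : (p : ZMod q) = 0 := by
      rw [hk]
      push_cast
      rw [show m + 2 = (m + 1) + 1 by ring, pow_succ, h3]
      have : ((2 * k + 1 : ℕ) : ZMod q) = 0 := by
        rw [ZMod.natCast_eq_zero_iff]; exact hqk
      push_cast at this
      rw [← this]; ring
    have h5 : q ∣ p := by
      rw [← ZMod.natCast_eq_zero_iff]; exact h4
    have h6 : q = p := (Nat.prime_dvd_prime_iff_eq hq hp).mp h5
    have h7 : q ≤ 2 * k + 1 := Nat.le_of_dvd (by omega) hqk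
    have h8 : 2 * k + 1 < k * 2 ^ (m + 2) + 1 := by
      have : 2 ^ 2 ≤ 2 ^ (m + 2) := Nat.pow_le_pow_right (by norm_num) (by omega)
      nlinarith
    omega
  calc Q * 2 ^ (m + 1) ≤ (2 * k) * 2 ^ (m + 1) := Nat.mul_le_mul_right _ (by omega)
    _ = k * 2 ^ (m + 2) := by ring
    _ < p := by omega
    _ ≤ d := hple

/-- If `q - 1` divides `m + 1` for every odd prime `q ≤ Q`, then every divisor `> 1` of every
Fermat number with index `n ≥ m` is larger than `Q * 2 ^ (m + 1)`. -/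
theorem divisor_large_all {m Q n : ℕ} (hm : 1 < m)
    (h : ∀ q : ℕ, q.Prime → q ≠ 2 → q ≤ Q → q - 1 ∣ m + 1) (hn : m ≤ n) {d : ℕ} (hd1 : 1 < d)
    (hd : d ∣ Nat.fermatNumber n) : Q * 2 ^ (m + 1) < d := by
  obtain ⟨p, hp, hpd⟩ := Nat.exists_prime_and_dvd (by omega : d ≠ 1)
  have hpF : p ∣ Nat.fermatNumber n := hpd.trans hd
  obtain ⟨k, hk⟩ := Nat.fermat_primeFactors_one_lt n p (by omega) hp hpF
  obtain ⟨j, rfl⟩ := Nat.exists_eq_add_of_le hn
  have hk0 : 0 < k := by
    rcases Nat.eq_zero_or_pos k with h0 | h0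
    · exfalso; rw [h0] at hk; simp at hk; exact hp.one_lt.ne' hk
    · exact h0
  have hple : p ≤ d := Nat.le_of_dvd (by omega) hpd
  set K := k * 2 ^ (j + 1) with hK
  have hK0 : 0 < K := by positivity
  have hK2 : 2 ∣ K := ⟨k * 2 ^ j, by rw [hK, pow_succ]; ring⟩
  have hkK : k * 2 ^ (m + j + 2) = K * 2 ^ (m + 1) := by
    rw [hK, show m + j + 2 = (j + 1) + (m + 1) by ring, pow_add]; ring
  have hQ : Q < K + 1 := by
    by_contra hcon
    push Not at hcon
    obtain ⟨q, hq, hqk⟩ := Nat.exists_prime_and_dvd (by omega : K + 1 ≠ 1)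
    have hq2 : q ≠ 2 := by
      rintro rfl
      omega
    have hqQ : q ≤ Q := (Nat.le_of_dvd (by omega) hqk).trans hcon
    have hdv := h q hq hq2 hqQ
    have := Fact.mk hq
    have h2 : (2 : ZMod q) ≠ 0 := by
      intro h0
      have : (q : ℕ) ∣ 2 := by
        rw [← ZMod.natCast_eq_zero_iff]; exact_mod_cast h0
      have := (Nat.prime_dvd_prime_iff_eq hq Nat.prime_two).mp this
      exact hq2 this
    have h3 : (2 : ZMod q) ^ (m + 1) = 1 := by
      obtain ⟨t, ht⟩ := hdv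
      rw [ht, pow_mul, ZMod.pow_card_sub_one_eq_one h2, one_pow]
    have h4 : (p : ZMod q) = 0 := by
      rw [hk, hkK]
      push_cast
      rw [h3]
      have : ((K + 1 : ℕ) : ZMod q) = 0 := by
        rw [ZMod.natCast_eq_zero_iff]; exact hqk
      push_cast at this
      rw [← this]; ring
    have h5 : q ∣ p := by
      rw [← ZMod.natCast_eq_zero_iff]; exact h4
    have h6 : q = p := (Nat.prime_dvd_prime_iff_eq hq hp).mp h5
    have h7 : q ≤ K + 1 := Nat.le_of_dvd (by omega) hqk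
    have h8 : K + 1 < K * 2 ^ (m + 1) + 1 := by
      have : 2 ^ 1 < 2 ^ (m + 1) := Nat.pow_lt_pow_right (by norm_num) (by omega)
      nlinarith
    omega
  calc Q * 2 ^ (m + 1) ≤ K * 2 ^ (m + 1) := Nat.mul_le_mul_right _ (by omega)
    _ = k * 2 ^ (m + j + 2) := hkK.symm
    _ < p := by omega
    _ ≤ d := hple

end Pool.Agent.helper76.Fer
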