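import Pool.Agent.helper76.Fer.Count

/-!
# Asymptotic form of the bound for `#(S Q)`
-/

namespace Pool.Agent.helper76.Fer

open Finset Pool.Agent.Lib.BrunHooley

lemma exp_half_ge {t : ℝ} (ht : 2304 ≤ t) : 6 * t ^ 3 ≤ Real.exp (t / 2) := by
  have h := Real.pow_div_factorial_le_exp (x := t / 2) (by linarith) 4
  have e : (t / 2) ^ 4 / (Nat.factorial 4 : ℝ) = t ^ 4 / 384 := by
    norm_num [Nat.factorial]; ring
  rw [e] at h
  refine le_trans ?_ h
  rw [le_div_iff₀ (by norm_num)]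
  have h3 : 0 ≤ t ^ 3 := by positivity
  nlinarith

lemma lt_Z (r : ℕ) : r < Z r := by
  unfold Z
  exact lt_of_lt_of_le (Nat.lt_two_pow_self) (Nat.pow_le_pow_right (by norm_num) Nat.lt_two_pow_self.le)

lemma exists_r (B Q : ℕ) (hQ : 2 ^ (2 * B + 2) ≤ Q) :
    ∃ r, Z r ^ (2 * B + 2) ≤ Q ∧ Q < Z r ^ (4 * B + 4) := by
  classical
  set P : ℕ → Prop := fun r => Z r ^ (2 * B + 2) ≤ Q with hP
  have h0 : P 0 := by simpa [hP, Z] using hQ
  have h1 : P (Nat.findGreatest P Q) := Nat.findGreatest_spec (Nat.zero_le Q) h0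
  refine ⟨Nat.findGreatest P Q, h1, ?_⟩
  by_contra hcon
  push Not at hcon
  have h2 : P (Nat.findGreatest P Q + 1) := by
    change Z (Nat.findGreatest P Q + 1) ^ (2 * B + 2) ≤ Q
    rw [Z_succ, ← sq, ← pow_mul, show 2 * (2 * B + 2) = 4 * B + 4 by ring]
    exact hcon
  have h3 : Nat.findGreatest P Q + 1 ≤ Q := by
    have h4 : Nat.findGreatest P Q + 1 < Z (Nat.findGreatest P Q + 1) := lt_Z _
    have h5 : Z (Nat.findGreatest P Q + 1) ≤ Z (Nat.findGreatest P Q + 1) ^ (2 * B + 2) :=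
      Nat.le_self_pow (by omega) _
    have h6 : Z (Nat.findGreatest P Q + 1) ^ (2 * B + 2) ≤ Q := h2
    omega
  have := Nat.le_findGreatest h3 h2
  omega

theorem card_S_asymp : ∃ C : ℝ, 0 < C ∧ ∃ T : ℝ, 2304 ≤ T ∧ ∀ Q : ℕ, T ≤ Real.log Q →
    (#(S Q) : ℝ) * (Real.log Q) ^ 2 ≤ C * Q * (1 + Real.log (Real.log Q)) := by
  obtain ⟨B, hB⟩ := card_S_le
  refine ⟨1 + 16 * (B + 1) + 384 * (B + 1) ^ 2, by positivity,
    max 2304 ((2 * B + 2 : ℕ) : ℝ), le_max_left _ _, ?_⟩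
  intro Q hQt
  set t := Real.log Q with ht
  have ht1 : 2304 ≤ t := (le_max_left _ _).trans hQt
  have ht2 : ((2 * B + 2 : ℕ) : ℝ) ≤ t := (le_max_right _ _).trans hQt
  have hQ1 : 1 < Q := by
    by_contra hcon
    push Not at hcon
    have : t ≤ 0 := by
      rw [ht]
      exact Real.log_nonpos (Nat.cast_nonneg _) (by exact_mod_cast hcon)
    linarith
  have hQpos : (0 : ℝ) < Q := by exact_mod_cast (by omega : 0 < Q)
  have hexp : Real.exp t = Q := Real.exp_log hQpos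
  set s := Real.exp (t / 2) with hs
  have hss : s * s = Q := by rw [hs, ← Real.exp_add, ← hexp]; congr 1; ring
  have hspos : 0 < s := Real.exp_pos _
  have hs3 : 6 * t ^ 3 ≤ s := exp_half_ge ht1
  have ht3 : t ≤ t ^ 3 := by
    have : 0 ≤ t * (t ^ 2 - 1) := mul_nonneg (by linarith) (by nlinarith)
    nlinarith
  have hst : 6 * t ≤ s := by linarith
  -- sieve level
  have hQB : 2 ^ (2 * B + 2) ≤ Q := by
    have h1 : ((2 ^ (2 * B + 2) : ℕ) : ℝ) ≤ Q := by
      rw [← hexp]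
      push_cast
      have h2 : (2 : ℝ) ≤ Real.exp 1 := by
        have := Real.add_one_le_exp (1 : ℝ); linarith
      calc (2 : ℝ) ^ (2 * B + 2) ≤ (Real.exp 1) ^ (2 * B + 2) := pow_le_pow_left₀ (by norm_num) h2 _
        _ = Real.exp ((2 * B + 2 : ℕ) : ℝ) := by rw [← Real.exp_nat_mul, mul_one]
        _ ≤ Real.exp t := Real.exp_le_exp.mpr ht2
    exact_mod_cast h1
  obtain ⟨r, hr1, hr2⟩ := exists_r B Q hQB
  have hZ2 : (2 : ℝ) ≤ Z r := by exact_mod_cast two_le_Z r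
  have hlogZ : 0 < Real.log (Z r) := Real.log_pos (by linarith)
  have hlogZ2 : t ≤ (4 * B + 4) * Real.log (Z r) := by
    have h1 : (Q : ℝ) ≤ (Z r : ℝ) ^ (4 * B + 4) := by exact_mod_cast hr2.le
    have h2 := Real.log_le_log hQpos h1
    rw [Real.log_pow] at h2
    push_cast at h2
    exact h2
  have hinv : 1 / Real.log (Z r) ≤ (4 * B + 4) / t := by
    rw [div_le_div_iff₀ hlogZ (by linarith)]
    linarith
  have hZs : (Z r : ℝ) ^ (B + 1) ≤ s := by
    have h1 : ((Z r : ℝ) ^ (B + 1)) ^ 2 ≤ s ^ 2 := by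
      rw [← pow_mul, sq s, hss]
      have : (B + 1) * 2 = 2 * B + 2 := by ring
      rw [this]
      exact_mod_cast hr1
    exact (pow_le_pow_iff_left₀ (by positivity) hspos.le (by norm_num)).mp h1
  have hZ1 : (Z r : ℝ) ≤ s := by
    refine le_trans ?_ hZs
    exact le_self_pow₀ (by linarith) (by omega)
  have hZB : (Z r : ℝ) ^ B ≤ s := by
    refine le_trans ?_ hZs
    exact pow_le_pow_right₀ (by linarith) (by omega)
  -- L
  set L := Nat.log 2 Q with hL
  have hl2 := Real.log_two_gt_d9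
  have hl2' := Real.log_two_lt_d9
  have hLle : (L : ℝ) ≤ 2 * t := by
    have h1 : 2 ^ L ≤ Q := Nat.pow_log_le_self 2 (by omega)
    have h2 : ((2 : ℝ) ^ L) ≤ Q := by exact_mod_cast h1
    have h3 := Real.log_le_log (by positivity) h2
    rw [Real.log_pow] at h3
    have : (L : ℝ) * Real.log 2 ≤ t := h3
    have hLn : (0 : ℝ) ≤ L := Nat.cast_nonneg _
    nlinarith
  have hLge : t / 2 ≤ (L : ℝ) := by
    have h1 : Q < 2 ^ (L + 1) := Nat.lt_pow_succ_log_self (by norm_num) Q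
    have h2 : (Q : ℝ) ≤ (2 : ℝ) ^ (L + 1) := by exact_mod_cast h1.le
    have h3 := Real.log_le_log hQpos h2
    rw [Real.log_pow] at h3
    push_cast at h3
    have hLn : (0 : ℝ) ≤ L := Nat.cast_nonneg _
    nlinarith
  have hLpos : (0 : ℝ) < L := by linarith
  have hL0 : 0 < L := by exact_mod_cast hLpos
  set Y := Q / L with hY
  have hYle : (Y : ℝ) ≤ Q / L := Nat.cast_div_le
  have hYQ : Y ≤ Q := Nat.div_le_self _ _
  have hYgt : (Q : ℝ) / L < Y + 1 := by
    rw [div_lt_iff₀ hLpos]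
    have h1 : Q < (Y + 1) * L := by
      have := Nat.lt_mul_div_succ Q hL0
      rw [mul_comm] at this
      exact this
    exact_mod_cast h1
  have hQL : (Q : ℝ) / (2 * t) ≤ Q / L := by gcongr
  have hQt' : 3 * s ≤ (Q : ℝ) / (2 * t) := by
    rw [le_div_iff₀ (by linarith), ← hss]
    nlinarith
  have hYs : 2 * s ≤ Y := by
    have : 1 ≤ s := by linarith
    linarith
  have hZY : Z r ≤ Y := by
    have : (Z r : ℝ) ≤ Y := by linarith
    exact_mod_cast this
  have hY2 : 2 ≤ Y := by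
    have : (2 : ℝ) ≤ Y := by linarith
    exact_mod_cast this
  have hYt : (Q : ℝ) / (4 * t) ≤ Y := by
    have h1 : (Q : ℝ) / (4 * t) = (Q / (2 * t)) / 2 := by field_simp; ring
    rw [h1]
    linarith
  have hYpos : (0 : ℝ) < Y := by linarith
  set J := Q / Y with hJ
  have hJle : (J : ℝ) ≤ 4 * t := by
    have h1 : (J : ℝ) ≤ (Q : ℝ) / Y := Nat.cast_div_le
    refine h1.trans ?_
    rw [div_le_iff₀ hYpos]
    rw [div_le_iff₀ (by linarith)] at hYt
    linarith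
  have hlogt : 0 < Real.log t := Real.log_pos (by linarith)
  have hlogJ : 1 + Real.log J ≤ 3 * (1 + Real.log t) := by
    have h4 : Real.log 4 ≤ 2 := by
      have : Real.log 4 = 2 * Real.log 2 := by
        rw [show (4 : ℝ) = 2 ^ 2 by norm_num, Real.log_pow]; push_cast; ring
      linarith
    rcases Nat.eq_zero_or_pos J with h0 | h0
    · rw [h0]; simp; linarith
    · have h1 : Real.log J ≤ Real.log (4 * t) :=
        Real.log_le_log (by exact_mod_cast h0) hJle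
      rw [Real.log_mul (by norm_num) (by linarith)] at h1
      linarith
  have hlogJ0 : 0 ≤ 1 + Real.log J := by
    have := Real.log_natCast_nonneg J
    linarith
  have main := hB r Q Y hY2 hZY hYQ
  rw [← hJ] at main
  have htt : 0 ≤ t ^ 2 := by positivity
  have hB0 : (0 : ℝ) ≤ B := Nat.cast_nonneg _
  -- the five terms
  have t1 : (Z r : ℝ) * t ^ 2 ≤ s * t ^ 2 := mul_le_mul_of_nonneg_right hZ1 htt
  have t3 : (Z r : ℝ) ^ B * t ^ 2 ≤ s * t ^ 2 := mul_le_mul_of_nonneg_right hZB htt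
  have t5 : (J : ℝ) * (Z r : ℝ) ^ B * t ^ 2 ≤ 4 * t * s * t ^ 2 := by
    apply mul_le_mul_of_nonneg_right _ htt
    exact mul_le_mul hJle hZB (by positivity) (by linarith)
  have t2 : 2 * (Y : ℝ) / Real.log (Z r) * t ^ 2 ≤ 16 * (B + 1) * Q := by
    have h1 : (Y : ℝ) ≤ 2 * Q / t := by
      refine hYle.trans ?_
      rw [div_le_div_iff₀ hLpos (by linarith)]
      nlinarith
    calc 2 * (Y : ℝ) / Real.log (Z r) * t ^ 2 = 2 * (Y : ℝ) * (1 / Real.log (Z r)) * t ^ 2 := by ring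
      _ ≤ 2 * (2 * Q / t) * ((4 * B + 4) / t) * t ^ 2 := by
          gcongr
      _ = 16 * (B + 1) * Q := by
          have : t ≠ 0 := by linarith
          field_simp
          ring
  have t4 : 8 * (Q : ℝ) * (1 + Real.log J) / (Real.log (Z r)) ^ 2 * t ^ 2
      ≤ 384 * (B + 1) ^ 2 * Q * (1 + Real.log t) := by
    calc 8 * (Q : ℝ) * (1 + Real.log J) / (Real.log (Z r)) ^ 2 * t ^ 2
        = 8 * (Q : ℝ) * (1 + Real.log J) * (1 / Real.log (Z r)) ^ 2 * t ^ 2 := by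
          rw [one_div, inv_pow]; ring
      _ ≤ 8 * (Q : ℝ) * (3 * (1 + Real.log t)) * ((4 * B + 4) / t) ^ 2 * t ^ 2 := by
          gcongr
      _ = _ := by
          have : t ≠ 0 := by linarith
          field_simp
          ring
  have t6 : s * t ^ 2 + s * t ^ 2 + 4 * t * s * t ^ 2 ≤ Q := by
    rw [← hss]
    have h1 : t ^ 2 ≤ t ^ 3 := by nlinarith
    have h2 : s * t ^ 2 + s * t ^ 2 + 4 * t * s * t ^ 2 = s * (2 * t ^ 2 + 4 * t ^ 3) := by ring
    rw [h2]
    apply mul_le_mul_of_nonneg_left _ hspos.le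
    linarith
  have fin : (#(S Q) : ℝ) * t ^ 2 ≤ Q + 16 * (B + 1) * Q + 384 * (B + 1) ^ 2 * Q * (1 + Real.log t) := by
    calc (#(S Q) : ℝ) * t ^ 2 ≤ (Z r + 2 * Y / Real.log (Z r) + (Z r : ℝ) ^ B
      + 8 * Q * (1 + Real.log J) / (Real.log (Z r)) ^ 2 + J * (Z r : ℝ) ^ B) * t ^ 2 :=
          mul_le_mul_of_nonneg_right main htt
      _ = (Z r : ℝ) * t ^ 2 + 2 * (Y : ℝ) / Real.log (Z r) * t ^ 2 + (Z r : ℝ) ^ B * t ^ 2
        + 8 * (Q : ℝ) * (1 + Real.log J) / (Real.log (Z r)) ^ 2 * t ^ 2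
        + (J : ℝ) * (Z r : ℝ) ^ B * t ^ 2 := by ring
      _ ≤ _ := by linarith
  refine fin.trans ?_
  have h7 : (Q : ℝ) + 16 * (B + 1) * Q ≤ ((Q : ℝ) + 16 * (B + 1) * Q) * (1 + Real.log t) :=
    le_mul_of_one_le_right (by positivity) (by linarith)
  calc _ ≤ ((Q : ℝ) + 16 * (B + 1) * Q) * (1 + Real.log t) + 384 * (B + 1) ^ 2 * Q * (1 + Real.log t) := by
        linarith
    _ = _ := by ring

end Pool.Agent.helper76.Fer
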