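import Mathlib

/-!
# The sum `∑_{j ≤ J} 1/φ(j) = O(1 + log J)`
-/

namespace Pool.Agent.helper76.Fer

open Finset

/-- `j / φ(j)` as a product over prime factors. -/
noncomputable def g (j : ℕ) : ℝ := ∏ p ∈ j.primeFactors, (1 - 1 / (p : ℝ))⁻¹

lemma prod_telescope (n : ℕ) : (1 : ℝ) / 2 ≤ ∏ i ∈ Icc 2 n, (1 - 1 / (i : ℝ) ^ 2) := by
  have key : ∀ n : ℕ, ∏ i ∈ Icc 2 (n + 1), (1 - 1 / (i : ℝ) ^ 2) = ((n : ℝ) + 2) / (2 * (n + 1)) := by
    intro n
    induction n with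
    | zero => simp
    | succ n ih =>
      rw [prod_Icc_succ_top (by omega), ih]
      push_cast
      have : (n : ℝ) + 1 + 1 ≠ 0 := by positivity
      have : (n : ℝ) + 1 ≠ 0 := by positivity
      field_simp
      ring
  rcases Nat.eq_zero_or_pos n with h | h
  · subst h; norm_num
  · obtain ⟨m, rfl⟩ : ∃ m, n = m + 1 := ⟨n - 1, by omega⟩
    rw [key m, div_le_div_iff₀ (by norm_num) (by positivity)]
    linarith

lemma prod_primeFactors_sq (j : ℕ) (hj : 0 < j) :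
    (1 : ℝ) / 2 ≤ ∏ p ∈ j.primeFactors, (1 - 1 / (p : ℝ) ^ 2) := by
  refine (prod_telescope j).trans ?_
  apply prod_le_prod_of_subset_of_le_one
  · intro p hp
    have h := Nat.mem_primeFactors.mp hp
    exact mem_Icc.mpr ⟨h.1.two_le, Nat.le_of_dvd hj h.2.1⟩
  · intro i hi
    have h2 : (2 : ℝ) ≤ i := by exact_mod_cast (mem_Icc.mp hi).1
    have : 1 / (i : ℝ) ^ 2 ≤ 1 := by
      rw [div_le_one (by positivity)]; nlinarith
    linarith
  · intro i _ _
    have : 0 ≤ 1 / (i : ℝ) ^ 2 := by positivity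
    linarith

lemma prod_one_add_le (j : ℕ) (hj : 0 < j) :
    ∏ p ∈ j.primeFactors, (1 + 1 / (p : ℝ)) ≤ ∑ d ∈ j.divisors, (1 / (d : ℝ)) := by
  rw [prod_one_add]
  have e : ∀ t ∈ j.primeFactors.powerset, ∏ p ∈ t, (1 / (p : ℝ)) = 1 / ((∏ p ∈ t, p : ℕ) : ℝ) := by
    intro t _
    push_cast
    rw [prod_div_distrib]; simp
  rw [sum_congr rfl e]
  have hinj : Set.InjOn (fun t : Finset ℕ => ∏ p ∈ t, p) (j.primeFactors.powerset : Set (Finset ℕ)) := by
    intro s hs t ht hst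
    have hs' : ∀ p ∈ s, p.Prime := fun p hp =>
      (Nat.mem_primeFactors.mp (mem_powerset.mp hs hp)).1
    have ht' : ∀ p ∈ t, p.Prime := fun p hp =>
      (Nat.mem_primeFactors.mp (mem_powerset.mp ht hp)).1
    have h1 := Nat.primeFactors_prod hs'
    have h2 := Nat.primeFactors_prod ht'
    simp only at hst
    rw [← h1, ← h2, hst]
  rw [← sum_image (f := fun d : ℕ => 1 / (d : ℝ)) hinj]
  apply sum_le_sum_of_subset_of_nonneg
  · intro d hd
    obtain ⟨t, ht, rfl⟩ := mem_image.mp hd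
    rw [Nat.mem_divisors]
    refine ⟨?_, hj.ne'⟩
    exact (prod_dvd_prod_of_subset _ _ _ (mem_powerset.mp ht)).trans (Nat.prod_primeFactors_dvd j)
  · intro i _ _; positivity

lemma g_le (j : ℕ) (hj : 0 < j) : g j ≤ 2 * ∑ d ∈ j.divisors, (1 / (d : ℝ)) := by
  have h1 := prod_primeFactors_sq j hj
  have h2 := prod_one_add_le j hj
  have e : g j * ∏ p ∈ j.primeFactors, (1 - 1 / (p : ℝ) ^ 2) = ∏ p ∈ j.primeFactors, (1 + 1 / (p : ℝ)) := by
    rw [g, ← prod_mul_distrib]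
    refine prod_congr rfl fun p hp => ?_
    have h2 : (2 : ℝ) ≤ p := by exact_mod_cast (Nat.mem_primeFactors.mp hp).1.two_le
    have hp0 : (p : ℝ) ≠ 0 := by positivity
    have : (1 - 1 / (p : ℝ)) ≠ 0 := by
      have : 1 / (p : ℝ) ≤ 1 / 2 := one_div_le_one_div_of_le (by norm_num) h2
      linarith
    rw [inv_mul_eq_iff_eq_mul₀ this]
    field_simp
    ring
  have hg : 0 ≤ g j := by
    refine prod_nonneg fun p hp => ?_
    have h2 : (2 : ℝ) ≤ p := by exact_mod_cast (Nat.mem_primeFactors.mp hp).1.two_le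
    have : 1 / (p : ℝ) ≤ 1 / 2 := one_div_le_one_div_of_le (by norm_num) h2
    exact inv_nonneg.mpr (by linarith)
  have h3 : g j * (1 / 2) ≤ ∑ d ∈ j.divisors, (1 / (d : ℝ)) := by
    calc g j * (1 / 2) ≤ g j * ∏ p ∈ j.primeFactors, (1 - 1 / (p : ℝ) ^ 2) :=
          mul_le_mul_of_nonneg_left h1 hg
      _ ≤ _ := by rw [e]; exact h2
  linarith

lemma sum_inv_sq (n : ℕ) : ∑ d ∈ Icc 1 n, (1 / (d : ℝ) ^ 2) ≤ 2 := by
  have key : ∀ n : ℕ, ∑ d ∈ Icc 1 (n + 1), (1 / (d : ℝ) ^ 2) ≤ 2 - 1 / ((n : ℝ) + 1) := by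
    intro n
    induction n with
    | zero => simp; norm_num
    | succ n ih =>
      rw [sum_Icc_succ_top (by omega)]
      push_cast
      have h : 1 / ((n : ℝ) + 1 + 1) ^ 2 ≤ 1 / ((n : ℝ) + 1) - 1 / ((n : ℝ) + 1 + 1) := by
        rw [div_sub_div _ _ (by positivity) (by positivity), div_le_div_iff₀ (by positivity) (by positivity)]
        nlinarith
      linarith
  rcases Nat.eq_zero_or_pos n with h | h
  · subst h; norm_num
  · obtain ⟨m, rfl⟩ : ∃ m, n = m + 1 := ⟨n - 1, by omega⟩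
    have := key m
    have : 0 ≤ 1 / ((m : ℝ) + 1) := by positivity
    linarith [key m]

lemma sum_g (J : ℕ) : ∑ j ∈ Icc 1 J, (1 / (j : ℝ)) * g j ≤ 4 * (1 + Real.log J) := by
  have h1 : ∀ j ∈ Icc 1 J, (1 / (j : ℝ)) * g j
      ≤ 2 * ∑ d ∈ Icc 1 J, if d ∣ j then (1 / ((j : ℝ) * d)) else 0 := by
    intro j hj
    have hj1 := (mem_Icc.mp hj).1
    have hj2 := (mem_Icc.mp hj).2
    have h := g_le j hj1
    have e : ∑ d ∈ Icc 1 J, (if d ∣ j then (1 / ((j : ℝ) * d)) else 0)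
        = (1 / (j : ℝ)) * ∑ d ∈ j.divisors, (1 / (d : ℝ)) := by
      rw [← sum_filter, mul_sum]
      have : {d ∈ Icc 1 J | d ∣ j} = j.divisors := by
        ext d
        simp only [mem_filter, mem_Icc, Nat.mem_divisors]
        constructor
        · rintro ⟨⟨a, b⟩, c⟩; exact ⟨c, by omega⟩
        · rintro ⟨a, b⟩
          exact ⟨⟨Nat.pos_of_dvd_of_pos a hj1, (Nat.le_of_dvd hj1 a).trans hj2⟩, a⟩
      rw [this]
      refine sum_congr rfl fun d _ => ?_
      rw [one_div_mul_one_div]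
    rw [e]
    calc (1 / (j : ℝ)) * g j ≤ (1 / (j : ℝ)) * (2 * ∑ d ∈ j.divisors, (1 / (d : ℝ))) := by
          gcongr
      _ = _ := by ring
  refine (sum_le_sum h1).trans ?_
  rw [← mul_sum, sum_comm]
  have h2 : ∀ d ∈ Icc 1 J, ∑ j ∈ Icc 1 J, (if d ∣ j then (1 / ((j : ℝ) * d)) else 0)
      ≤ 1 / (d : ℝ) ^ 2 * (1 + Real.log J) := by
    intro d hd
    have hd1 := (mem_Icc.mp hd).1
    rw [← sum_filter]
    have hinj : Set.InjOn (fun i : ℕ => d * i) (Icc 1 J : Set ℕ) := by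
      intro a _ b _ hab
      exact Nat.eq_of_mul_eq_mul_left hd1 hab
    calc ∑ j ∈ Icc 1 J with d ∣ j, (1 / ((j : ℝ) * d))
        ≤ ∑ j ∈ (Icc 1 J).image (fun i => d * i), (1 / ((j : ℝ) * d)) := by
          apply sum_le_sum_of_subset_of_nonneg
          · intro j hj
            obtain ⟨hj, hdj⟩ := mem_filter.mp hj
            obtain ⟨i, rfl⟩ := hdj
            rw [mem_image]
            refine ⟨i, mem_Icc.mpr ⟨?_, ?_⟩, rfl⟩
            · have := (mem_Icc.mp hj).1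
              exact Nat.pos_of_ne_zero (by rintro rfl; simp at this)
            · have := (mem_Icc.mp hj).2
              nlinarith
          · intro i _ _; positivity
      _ = ∑ i ∈ Icc 1 J, (1 / (((d * i : ℕ) : ℝ) * d)) := by
          rw [sum_image hinj]
      _ = 1 / (d : ℝ) ^ 2 * ∑ i ∈ Icc 1 J, ((i : ℝ)⁻¹) := by
          rw [mul_sum]
          refine sum_congr rfl fun i hi => ?_
          have : (0 : ℝ) < i := by exact_mod_cast (mem_Icc.mp hi).1
          have : (0 : ℝ) < d := by exact_mod_cast hd1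
          push_cast
          field_simp
      _ ≤ 1 / (d : ℝ) ^ 2 * (1 + Real.log J) := by
          gcongr
          have h := harmonic_le_one_add_log J
          rw [harmonic_eq_sum_Icc] at h
          push_cast at h
          exact h
  have hlog : 0 ≤ Real.log J := Real.log_natCast_nonneg J
  calc 2 * ∑ d ∈ Icc 1 J, ∑ j ∈ Icc 1 J, (if d ∣ j then (1 / ((j : ℝ) * d)) else 0)
      ≤ 2 * ∑ d ∈ Icc 1 J, 1 / (d : ℝ) ^ 2 * (1 + Real.log J) := by
        gcongr with d hd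
        exact h2 d hd
    _ = 2 * ((∑ d ∈ Icc 1 J, 1 / (d : ℝ) ^ 2) * (1 + Real.log J)) := by rw [sum_mul]
    _ ≤ 2 * (2 * (1 + Real.log J)) := by
        gcongr
        exact sum_inv_sq J
    _ = _ := by ring

end Pool.Agent.helper76.Fer
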