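import Pool.Agent.Lib.SieveInterval
import Pool.Agent.Lib.PrimeSums
import Pool.Agent.helper76.Fer.GSum

/-!
# Counting the primes dividing `q - 1` for some prime `q ≤ Q`
-/

namespace Pool.Agent.helper76.Fer

open Finset Pool.Agent.Lib.BrunHooley

/-- The residue classes excluded by `ℓ` and `j ℓ + 1` both being prime. -/
def C (j p : ℕ) : Finset ℕ := if p.Prime then {c ∈ range p | c = 0 ∨ p ∣ j * c + 1} else ∅

lemma C_lt (j p : ℕ) : ∀ c ∈ C j p, c < p := by
  intro c hc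
  unfold C at hc
  split_ifs at hc
  · exact mem_range.mp (mem_filter.mp hc).1
  · simp at hc

/-- a residue other than `0` is unique. -/
lemma C_unique {j p c c' : ℕ} (hp : p.Prime) (hc : c < p) (hc' : c' < p) (h : p ∣ j * c + 1)
    (h' : p ∣ j * c' + 1) : c = c' := by
  have := Fact.mk hp
  have e1 : ((j : ZMod p) * c + 1) = 0 := by
    have := (ZMod.natCast_eq_zero_iff (j * c + 1) p).mpr h
    push_cast at this; exact this
  have e2 : ((j : ZMod p) * c' + 1) = 0 := by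
    have := (ZMod.natCast_eq_zero_iff (j * c' + 1) p).mpr h'
    push_cast at this; exact this
  have hj : (j : ZMod p) ≠ 0 := by
    intro h0; rw [h0] at e1; simp at e1
  have e3 : (j : ZMod p) * c = j * c' := by
    rw [← add_left_inj (1 : ZMod p), e1, e2]
  have e4 : (c : ZMod p) = c' := mul_left_cancel₀ hj e3
  have := (ZMod.natCast_eq_natCast_iff' c c' p).mp e4
  rwa [Nat.mod_eq_of_lt hc, Nat.mod_eq_of_lt hc'] at this

lemma card_C_le (j p : ℕ) : #(C j p) ≤ 2 := by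
  unfold C
  split_ifs with hp
  · have : {c ∈ range p | c = 0 ∨ p ∣ j * c + 1}
        ⊆ insert 0 {c ∈ range p | p ∣ j * c + 1} := by
      intro c hc
      simp only [mem_filter, mem_insert] at hc ⊢
      tauto
    refine (card_le_card this).trans ?_
    refine (card_insert_le _ _).trans ?_
    have : #{c ∈ range p | p ∣ j * c + 1} ≤ 1 := by
      rw [card_le_one]
      intro a ha b hb
      rw [mem_filter, mem_range] at ha hb
      exact C_unique hp ha.1 hb.1 ha.2 hb.2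
    omega
  · simp

lemma card_C_dvd {j p : ℕ} (hp : p.Prime) (h : p ∣ j) : #(C j p) = 1 := by
  unfold C
  rw [if_pos hp]
  have : {c ∈ range p | c = 0 ∨ p ∣ j * c + 1} = {0} := by
    ext c
    simp only [mem_filter, mem_range, mem_singleton]
    constructor
    · rintro ⟨_, h1 | h1⟩
      · exact h1
      · exfalso
        have : p ∣ 1 := (Nat.dvd_add_right (h.mul_right c)).mp h1
        exact hp.one_lt.ne' (Nat.dvd_one.mp this)
    · rintro rfl
      exact ⟨hp.pos, Or.inl rfl⟩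
  rw [this]; simp

lemma card_C_not_dvd {j p : ℕ} (hp : p.Prime) (h : ¬ p ∣ j) : #(C j p) = 2 := by
  have h2 := card_C_le j p
  have := Fact.mk hp
  have hj : (j : ZMod p) ≠ 0 := by
    rw [Ne, ZMod.natCast_eq_zero_iff]; exact h
  set c : ℕ := (-(j : ZMod p)⁻¹).val with hc
  have hcp : c < p := ZMod.val_lt _
  have hcz : (c : ZMod p) = -(j : ZMod p)⁻¹ := by rw [hc]; simp
  have hc1 : p ∣ j * c + 1 := by
    rw [← ZMod.natCast_eq_zero_iff]
    push_cast
    rw [hcz]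
    field_simp
    ring
  have hc0 : c ≠ 0 := by
    rintro h0
    rw [h0] at hc1
    simp at hc1
    exact hp.one_lt.ne' hc1
  have : ({0, c} : Finset ℕ) ⊆ C j p := by
    intro x hx
    simp only [mem_insert, mem_singleton] at hx
    unfold C
    rw [if_pos hp, mem_filter, mem_range]
    rcases hx with rfl | rfl
    · exact ⟨hp.pos, Or.inl rfl⟩
    · exact ⟨hcp, Or.inr hc1⟩
  have := card_le_card this
  rw [card_pair hc0.symm] at this
  omega

lemma card_C_lt {j p : ℕ} (hj : Even j) (hp : p.Prime) : #(C j p) < p := by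
  rcases eq_or_ne p 2 with rfl | h2
  · rw [card_C_dvd Nat.prime_two hj.two_dvd]; norm_num
  · have := card_C_le j p
    have := hp.two_le
    omega

/-- The Euler factor bound. -/
lemma prod_C_le {j : ℕ} (hj0 : 0 < j) (hj : Even j) (z : ℕ) (hz : 1 ≤ z) :
    ∏ p ∈ Nat.primesLE z, (1 - (#(C j p) : ℝ) / p) ≤ (1 / Real.log (z + 1)) ^ 2 * g j := by
  have key : ∀ p ∈ Nat.primesLE z, (1 - (#(C j p) : ℝ) / p)
      ≤ (1 - 1 / (p : ℝ)) ^ 2 * (if p ∣ j then (1 - 1 / (p : ℝ))⁻¹ else 1) := by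
    intro p hp
    have hpp := (Nat.mem_primesLE.mp hp).2
    have hp2 : (2 : ℝ) ≤ p := by exact_mod_cast hpp.two_le
    have h1 : 1 / (p : ℝ) ≤ 1 / 2 := one_div_le_one_div_of_le (by norm_num) hp2
    split_ifs with h
    · rw [card_C_dvd hpp h, sq, mul_assoc, mul_inv_cancel₀ (by linarith)]
      simp
    · rw [card_C_not_dvd hpp h]
      push_cast
      have h3 : 0 ≤ (1 / (p : ℝ)) ^ 2 := by positivity
      have h4 : (2 : ℝ) / p = 2 * (1 / p) := by ring
      rw [h4]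
      nlinarith
  have hnn : ∀ p ∈ Nat.primesLE z, 0 ≤ (1 - (#(C j p) : ℝ) / p) := by
    intro p hp
    have hpp := (Nat.mem_primesLE.mp hp).2
    have := card_C_lt hj hpp
    have h1 : (#(C j p) : ℝ) ≤ p := by exact_mod_cast this.le
    have h2 : (0 : ℝ) < p := by exact_mod_cast hpp.pos
    rw [sub_nonneg, div_le_one h2]
    exact h1
  refine (prod_le_prod hnn key).trans ?_
  rw [prod_mul_distrib, prod_pow]
  have hb : ∀ p : ℕ, p.Prime → 0 < 1 - 1 / (p : ℝ) ∧ 1 - 1 / (p : ℝ) ≤ 1 := by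
    intro p hpp
    have hp2 : (2 : ℝ) ≤ p := by exact_mod_cast hpp.two_le
    have h1 : 1 / (p : ℝ) ≤ 1 / 2 := one_div_le_one_div_of_le (by norm_num) hp2
    have h2 : 0 ≤ 1 / (p : ℝ) := by positivity
    exact ⟨by linarith, by linarith⟩
  have h1 : ∏ p ∈ Nat.primesLE z, (1 - 1 / (p : ℝ)) ≤ 1 / Real.log (z + 1) :=
    Pool.Agent.Lib.PrimeSums.prod_one_sub_le z hz
  have h0 : 0 ≤ ∏ p ∈ Nat.primesLE z, (1 - 1 / (p : ℝ)) :=
    prod_nonneg fun p hp => (hb p (Nat.mem_primesLE.mp hp).2).1.le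
  have h2 : ∏ p ∈ Nat.primesLE z, (if p ∣ j then (1 - 1 / (p : ℝ))⁻¹ else 1) ≤ g j := by
    rw [← prod_filter, g]
    apply prod_le_prod_of_subset_of_one_le
    · intro p hp
      obtain ⟨hp1, hp2⟩ := mem_filter.mp hp
      exact Nat.mem_primeFactors.mpr ⟨(Nat.mem_primesLE.mp hp1).2, hp2, hj0.ne'⟩
    · intro p hp
      have := hb p (Nat.mem_primesLE.mp (mem_filter.mp hp).1).2
      exact inv_nonneg.mpr this.1.le
    · intro p hp _
      have := hb p (Nat.mem_primeFactors.mp hp).1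
      exact (one_le_inv₀ this.1).mpr this.2
  have h3 : 0 ≤ ∏ p ∈ Nat.primesLE z, (if p ∣ j then (1 - 1 / (p : ℝ))⁻¹ else 1) := by
    refine prod_nonneg fun p hp => ?_
    split_ifs
    · exact inv_nonneg.mpr (hb p (Nat.mem_primesLE.mp hp).2).1.le
    · norm_num
  have h4 : 0 ≤ (1 / Real.log (z + 1)) ^ 2 := by positivity
  exact mul_le_mul (pow_le_pow_left₀ h0 h1 2) h2 h3 h4

/-- residues excluded by `ℓ` being prime. -/
def C1 (p : ℕ) : Finset ℕ := if p.Prime then {0} else ∅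

lemma card_C1 {p : ℕ} (hp : p.Prime) : #(C1 p) = 1 := by
  unfold C1; rw [if_pos hp]; simp

/-- The primes dividing `q - 1` for some odd prime `q ≤ Q`. -/
def S (Q : ℕ) : Finset ℕ :=
  {l ∈ Nat.primesLE Q | ∃ q ∈ Nat.primesLE Q, q ≠ 2 ∧ l ∣ q - 1}

lemma primes_le_sifted (r Y : ℕ) :
    #(Nat.primesLE Y) ≤ Z r + #(sifted 0 Y (Z r) C1) := by
  have : Nat.primesLE Y ⊆ (Ioc 0 (Z r)) ∪ sifted 0 Y (Z r) C1 := by
    intro l hl
    obtain ⟨hl1, hl2⟩ := Nat.mem_primesLE.mp hl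
    rw [mem_union]
    rcases le_or_gt l (Z r) with h | h
    · exact Or.inl (mem_Ioc.mpr ⟨hl2.pos, h⟩)
    · refine Or.inr ?_
      unfold sifted
      rw [mem_filter, zero_add]
      refine ⟨mem_Ioc.mpr ⟨hl2.pos, hl1⟩, ?_⟩
      intro p hp hc
      obtain ⟨hp1, hp2⟩ := Nat.mem_primesLE.mp hp
      unfold C1 at hc
      rw [if_pos hp2, mem_singleton] at hc
      have hd : p ∣ l := Nat.dvd_of_mod_eq_zero hc
      have := (Nat.prime_dvd_prime_iff_eq hp2 hl2).mp hd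
      omega
  refine (card_le_card this).trans ((card_union_le _ _).trans ?_)
  rw [Nat.card_Ioc]
  omega

lemma S_subset {Q Y r : ℕ} (hY : 2 ≤ Y) (hr : Z r ≤ Y) :
    S Q ⊆ Nat.primesLE Y ∪ ({j ∈ Icc 1 (Q / Y) | Even j}).biUnion
      (fun j => sifted 0 (Q / j) (Z r) (C j)) := by
  intro l hl
  unfold S at hl
  obtain ⟨hl, q, hq, hq2, hlq⟩ := mem_filter.mp hl
  obtain ⟨hl1, hl2⟩ := Nat.mem_primesLE.mp hl
  obtain ⟨hq1, hq3⟩ := Nat.mem_primesLE.mp hq
  rw [mem_union]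
  rcases le_or_gt l Y with h | h
  · exact Or.inl (Nat.mem_primesLE.mpr ⟨h, hl2⟩)
  refine Or.inr ?_
  obtain ⟨j, hj⟩ := hlq
  have hq5 := hq3.two_le
  have hqj : q = j * l + 1 := by
    have : q = (q - 1) + 1 := by omega
    rw [this, hj]; ring
  have hj0 : 0 < j := by
    rcases Nat.eq_zero_or_pos j with h0 | h0
    · subst h0; simp at hqj; omega
    · exact h0
  have hjY : j ≤ Q / Y := by
    rw [Nat.le_div_iff_mul_le (by omega)]
    have : j * Y ≤ j * l := Nat.mul_le_mul_left _ h.le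
    omega
  have hjev : Even j := by
    by_contra hodd
    rw [Nat.not_even_iff_odd] at hodd
    have hlodd : Odd l := hl2.odd_of_ne_two (by omega)
    have : Even q := by
      rw [hqj]
      exact (hodd.mul hlodd).add_one
    have := (Nat.Prime.even_iff hq3).mp this
    exact hq2 this
  rw [mem_biUnion]
  refine ⟨j, mem_filter.mpr ⟨mem_Icc.mpr ⟨hj0, hjY⟩, hjev⟩, ?_⟩
  unfold sifted
  rw [mem_filter, zero_add]
  refine ⟨mem_Ioc.mpr ⟨hl2.pos, ?_⟩, ?_⟩
  · rw [Nat.le_div_iff_mul_le hj0]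
    rw [mul_comm]; omega
  intro p hp hc
  obtain ⟨hp1, hp2⟩ := Nat.mem_primesLE.mp hp
  unfold C at hc
  rw [if_pos hp2, mem_filter] at hc
  rcases hc.2 with h0 | h0
  · have hd : p ∣ l := Nat.dvd_of_mod_eq_zero h0
    have := (Nat.prime_dvd_prime_iff_eq hp2 hl2).mp hd
    omega
  · have hd : p ∣ q := by
      rw [hqj]
      have e : (j * (l % p) + 1) ≡ (j * l + 1) [MOD p] :=
        Nat.ModEq.add_right _ (Nat.ModEq.mul_left _ (Nat.mod_modEq l p))
      exact (Nat.modEq_zero_iff_dvd.mp (e.symm.trans (Nat.modEq_zero_iff_dvd.mpr h0)))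
    have := (Nat.prime_dvd_prime_iff_eq hp2 hq3).mp hd
    have : l ≤ j * l := Nat.le_mul_of_pos_left _ hj0
    omega

/-- Bound for the number of primes dividing `q - 1` for some odd prime `q ≤ Q`. -/
theorem card_S_le : ∃ B : ℕ, ∀ r Q Y : ℕ, 2 ≤ Y → Z r ≤ Y → Y ≤ Q →
    (#(S Q) : ℝ) ≤ Z r + 2 * Y / Real.log (Z r) + (Z r : ℝ) ^ B
      + 8 * Q * (1 + Real.log (Q / Y : ℕ)) / (Real.log (Z r)) ^ 2 + (Q / Y : ℕ) * (Z r : ℝ) ^ B := by
  obtain ⟨B, hB⟩ := interval_sieve 2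
  refine ⟨B, ?_⟩
  intro r Q Y hY hr hYQ
  have hZ2 : (2 : ℝ) ≤ Z r := by exact_mod_cast two_le_Z r
  have hlog : 0 < Real.log (Z r) := Real.log_pos (by linarith)
  have hlog' : Real.log (Z r) ≤ Real.log (Z r + 1) := Real.log_le_log (by linarith) (by linarith)
  have hinv : 1 / Real.log ((Z r : ℝ) + 1) ≤ 1 / Real.log (Z r) := one_div_le_one_div_of_le hlog hlog'
  -- part 1
  have p1 : (#(Nat.primesLE Y) : ℝ) ≤ Z r + (2 * Y / Real.log (Z r) + (Z r : ℝ) ^ B) := by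
    have h1 : (#(Nat.primesLE Y) : ℝ) ≤ Z r + #(sifted 0 Y (Z r) C1) := by
      exact_mod_cast primes_le_sifted r Y
    have h2 := (hB r 0 Y C1 (by
      intro p hp c hc
      unfold C1 at hc
      rw [if_pos hp, mem_singleton] at hc
      rw [hc]; exact hp.pos) (by
      intro p
      unfold C1
      split_ifs <;> simp) (by
      intro p hp
      rw [card_C1 hp]; exact hp.one_lt)).2
    have h3 : ∏ p ∈ Nat.primesLE (Z r), (1 - (#(C1 p) : ℝ) / p) ≤ 1 / Real.log (Z r) := by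
      have e : ∏ p ∈ Nat.primesLE (Z r), (1 - (#(C1 p) : ℝ) / p)
          = ∏ p ∈ Nat.primesLE (Z r), (1 - 1 / (p : ℝ)) := by
        refine prod_congr rfl fun p hp => ?_
        rw [card_C1 (Nat.mem_primesLE.mp hp).2]; simp
      rw [e]
      exact (Pool.Agent.Lib.PrimeSums.prod_one_sub_le (Z r) (Z_pos r)).trans hinv
    have h4 : 2 * (Y : ℝ) * ∏ p ∈ Nat.primesLE (Z r), (1 - (#(C1 p) : ℝ) / p)
        ≤ 2 * Y / Real.log (Z r) := by
      calc 2 * (Y : ℝ) * ∏ p ∈ Nat.primesLE (Z r), (1 - (#(C1 p) : ℝ) / p)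
          ≤ 2 * (Y : ℝ) * (1 / Real.log (Z r)) := by gcongr
        _ = _ := by ring
    linarith
  -- part 2
  have p2 : ∀ j ∈ {j ∈ Icc 1 (Q / Y) | Even j}, (#(sifted 0 (Q / j) (Z r) (C j)) : ℝ)
      ≤ 2 * Q / (Real.log (Z r)) ^ 2 * ((1 / (j : ℝ)) * g j) + (Z r : ℝ) ^ B := by
    intro j hj
    obtain ⟨hj1, hjev⟩ := mem_filter.mp hj
    have hj0 : 0 < j := (mem_Icc.mp hj1).1
    have h2 := (hB r 0 (Q / j) (C j) (fun p _ => C_lt j p) (card_C_le j)
      (fun p hp => card_C_lt hjev hp)).2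
    have h3 := prod_C_le hj0 hjev (Z r) (Z_pos r)
    have h4 : ((Q / j : ℕ) : ℝ) ≤ (Q : ℝ) / j := Nat.cast_div_le
    have hg : 0 ≤ g j := by
      refine prod_nonneg fun p hp => ?_
      have h2 : (2 : ℝ) ≤ p := by exact_mod_cast (Nat.mem_primeFactors.mp hp).1.two_le
      have : 1 / (p : ℝ) ≤ 1 / 2 := one_div_le_one_div_of_le (by norm_num) h2
      exact inv_nonneg.mpr (by linarith)
    have h5 : (1 / Real.log ((Z r : ℝ) + 1)) ^ 2 ≤ (1 / Real.log (Z r)) ^ 2 := by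
      apply pow_le_pow_left₀ _ hinv
      exact one_div_nonneg.mpr (by linarith)
    calc (#(sifted 0 (Q / j) (Z r) (C j)) : ℝ)
        ≤ 2 * ((Q / j : ℕ) : ℝ) * ∏ p ∈ Nat.primesLE (Z r), (1 - (#(C j p) : ℝ) / p)
          + (Z r : ℝ) ^ B := h2
      _ ≤ 2 * ((Q : ℝ) / j) * ((1 / Real.log (Z r)) ^ 2 * g j) + (Z r : ℝ) ^ B := by
          have h6 : ∏ p ∈ Nat.primesLE (Z r), (1 - (#(C j p) : ℝ) / p)
              ≤ (1 / Real.log (Z r)) ^ 2 * g j :=
            h3.trans (mul_le_mul_of_nonneg_right h5 hg)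
          have h7 : 0 ≤ (1 / Real.log (Z r)) ^ 2 * g j := mul_nonneg (by positivity) hg
          have h8 : 2 * ((Q / j : ℕ) : ℝ) * ∏ p ∈ Nat.primesLE (Z r), (1 - (#(C j p) : ℝ) / p)
              ≤ 2 * ((Q / j : ℕ) : ℝ) * ((1 / Real.log (Z r)) ^ 2 * g j) :=
            mul_le_mul_of_nonneg_left h6 (by positivity)
          have h9 : 2 * ((Q / j : ℕ) : ℝ) * ((1 / Real.log (Z r)) ^ 2 * g j)
              ≤ 2 * ((Q : ℝ) / j) * ((1 / Real.log (Z r)) ^ 2 * g j) :=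
            mul_le_mul_of_nonneg_right (by linarith) h7
          linarith
      _ = _ := by
          have : (j : ℝ) ≠ 0 := by exact_mod_cast hj0.ne'
          field_simp
  have p3 : (#(({j ∈ Icc 1 (Q / Y) | Even j}).biUnion
      (fun j => sifted 0 (Q / j) (Z r) (C j))) : ℝ)
      ≤ 8 * Q * (1 + Real.log (Q / Y : ℕ)) / (Real.log (Z r)) ^ 2 + (Q / Y : ℕ) * (Z r : ℝ) ^ B := by
    have h1 : (#(({j ∈ Icc 1 (Q / Y) | Even j}).biUnion
      (fun j => sifted 0 (Q / j) (Z r) (C j))) : ℝ)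
        ≤ ∑ j ∈ {j ∈ Icc 1 (Q / Y) | Even j}, (#(sifted 0 (Q / j) (Z r) (C j)) : ℝ) := by
      exact_mod_cast card_biUnion_le
    refine h1.trans ((sum_le_sum p2).trans ?_)
    rw [sum_add_distrib, ← mul_sum]
    have hgn : ∀ j ∈ Icc 1 (Q / Y), 0 ≤ (1 / (j : ℝ)) * g j := by
      intro j _
      apply mul_nonneg (by positivity)
      refine prod_nonneg fun p hp => ?_
      have h2 : (2 : ℝ) ≤ p := by exact_mod_cast (Nat.mem_primeFactors.mp hp).1.two_le
      have : 1 / (p : ℝ) ≤ 1 / 2 := one_div_le_one_div_of_le (by norm_num) h2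
      exact inv_nonneg.mpr (by linarith)
    have h2 : ∑ j ∈ {j ∈ Icc 1 (Q / Y) | Even j}, (1 / (j : ℝ)) * g j
        ≤ 4 * (1 + Real.log (Q / Y : ℕ)) := by
      refine le_trans ?_ (sum_g (Q / Y))
      exact sum_le_sum_of_subset_of_nonneg (filter_subset _ _) (fun j hj _ => hgn j hj)
    have h3 : ∑ j ∈ {j ∈ Icc 1 (Q / Y) | Even j}, (Z r : ℝ) ^ B ≤ (Q / Y : ℕ) * (Z r : ℝ) ^ B := by
      rw [sum_const, nsmul_eq_mul]
      gcongr
      refine (card_filter_le _ _).trans ?_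
      simp
    have h4 : 2 * (Q : ℝ) / (Real.log (Z r)) ^ 2 * ∑ j ∈ {j ∈ Icc 1 (Q / Y) | Even j}, (1 / (j : ℝ)) * g j
        ≤ 8 * Q * (1 + Real.log (Q / Y : ℕ)) / (Real.log (Z r)) ^ 2 := by
      calc _ ≤ 2 * (Q : ℝ) / (Real.log (Z r)) ^ 2 * (4 * (1 + Real.log (Q / Y : ℕ))) := by
            gcongr
        _ = _ := by ring
    linarith
  have p4 : (#(S Q) : ℝ) ≤ #(Nat.primesLE Y) + #(({j ∈ Icc 1 (Q / Y) | Even j}).biUnion
      (fun j => sifted 0 (Q / j) (Z r) (C j))) := by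
    exact_mod_cast (card_le_card (S_subset (Q := Q) hY hr)).trans (card_union_le _ _)
  linarith

end Pool.Agent.helper76.Fer
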