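import Mathlib

/-!
# `2 ^ s + s` takes every residue modulo `M` with `s` small
-/

namespace Pool.Agent.helper76.Fer

lemma two_pow_period {a M₁ s : ℕ} (hodd : Odd M₁) (hs : a ≤ s) (t : ℕ) :
    2 ^ (s + Nat.totient M₁ * t) ≡ 2 ^ s [MOD 2 ^ a * M₁] := by
  have h1 : 2 ^ (Nat.totient M₁ * t) ≡ 1 [MOD M₁] := by
    rw [pow_mul]
    have h := (Nat.ModEq.pow_totient (Nat.coprime_two_left.mpr hodd)).pow t
    simpa using h
  have h2 : 2 ^ a * 2 ^ (Nat.totient M₁ * t) ≡ 2 ^ a * 1 [MOD 2 ^ a * M₁] := h1.mul_left' _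
  obtain ⟨b, rfl⟩ := Nat.exists_eq_add_of_le hs
  have h3 := h2.mul_left (2 ^ b)
  have e1 : 2 ^ b * (2 ^ a * 2 ^ (Nat.totient M₁ * t)) = 2 ^ (a + b + Nat.totient M₁ * t) := by
    rw [pow_add, pow_add]; ring
  have e2 : 2 ^ b * (2 ^ a * 1) = 2 ^ (a + b) := by rw [pow_add]; ring
  rwa [e1, e2] at h3

/-- solving `A + lam * t ≡ r` modulo `M`. -/
lemma exists_t {lam M A r : ℕ} (hM : 0 < M) (h : A ≡ r [MOD Nat.gcd lam M]) :
    ∃ t < M, A + lam * t ≡ r [MOD M] := by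
  have h1 : ((Nat.gcd lam M : ℕ) : ℤ) ∣ (r : ℤ) - A := by
    exact (Nat.modEq_iff_dvd).mp h
  obtain ⟨e, he⟩ := h1
  have hb : ((Nat.gcd lam M : ℕ) : ℤ) = lam * Nat.gcdA lam M + M * Nat.gcdB lam M :=
    Nat.gcd_eq_gcd_ab lam M
  set u := Nat.gcdA lam M with hu
  have hMz : (0 : ℤ) < M := by exact_mod_cast hM
  refine ⟨((u * e) % M).toNat, ?_, ?_⟩
  · have h2 := Int.emod_lt_of_pos (u * e) hMz
    have h3 := Int.emod_nonneg (u * e) hMz.ne'
    omega
  · rw [Nat.modEq_iff_dvd]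
    have h3 := Int.emod_nonneg (u * e) hMz.ne'
    push_cast
    rw [Int.toNat_of_nonneg h3]
    have h4 : (u * e) % M = u * e - M * ((u * e) / M) := Int.emod_def _ _
    rw [h4]
    refine ⟨Nat.gcdB lam M * e + lam * ((u * e) / M), ?_⟩
    have h5 : (r : ℤ) = A + ((Nat.gcd lam M : ℕ) : ℤ) * e := by rw [← he]; ring
    rw [h5, hb]
    ring

theorem exists_shift (M : ℕ) : 0 < M → ∀ r N : ℕ, M ≤ 2 ^ N →
    ∃ s, N ≤ s ∧ s ≤ N + 2 * M ^ 2 ∧ 2 ^ s + s ≡ r [MOD M] := by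
  induction M using Nat.strong_induction_on with
  | _ M ih =>
  intro hM r N hN
  rcases Nat.lt_or_ge 1 M with h1 | h1
  swap
  · have : M = 1 := by omega
    subst this
    exact ⟨N, le_refl _, by omega, Nat.modEq_one⟩
  obtain ⟨a, M₁, hodd, hMa⟩ := Nat.exists_eq_two_pow_mul_odd hM.ne'
  set lam := Nat.totient M₁ with hlam
  have hM1pos : 0 < M₁ := hodd.pos
  have hlpos : 0 < lam := Nat.totient_pos.mpr hM1pos
  have hM1le : M₁ ≤ M := by rw [hMa]; exact Nat.le_mul_of_pos_left _ (by positivity)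
  have hllt : lam < M := by
    rcases Nat.lt_or_ge 1 M₁ with h2 | h2
    · exact lt_of_lt_of_le (Nat.totient_lt M₁ h2) hM1le
    · have : M₁ = 1 := by omega
      rw [hlam, this]; simpa using h1
  set g := Nat.gcd lam M with hg
  have hgl : g ≤ lam := Nat.le_of_dvd hlpos (Nat.gcd_dvd_left _ _)
  have hgM : g < M := lt_of_le_of_lt hgl hllt
  have hgpos : 0 < g := Nat.gcd_pos_of_pos_left _ hlpos
  have h2g : 2 * g ≤ M := by
    obtain ⟨c, hc⟩ := Nat.gcd_dvd_right lam M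
    rw [← hg] at hc
    have hc2 : 2 ≤ c := by
      by_contra hcon
      push Not at hcon
      interval_cases c <;> omega
    calc 2 * g = g * 2 := by ring
      _ ≤ g * c := Nat.mul_le_mul_left _ hc2
      _ = M := hc.symm
  obtain ⟨s0, hs1, hs2, hs3⟩ := ih g hgM hgpos r N (by omega)
  obtain ⟨t, ht1, ht2⟩ := exists_t (lam := lam) (M := M) (A := 2 ^ s0 + s0) (r := r) hM hs3
  have ha : a ≤ s0 := by
    have h3 : 2 ^ a ≤ M := by rw [hMa]; exact Nat.le_mul_of_pos_right _ hM1pos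
    have h4 : 2 ^ a ≤ 2 ^ N := h3.trans hN
    exact ((Nat.pow_le_pow_iff_right (by norm_num)).mp h4).trans hs1
  refine ⟨s0 + lam * t, by omega, ?_, ?_⟩
  · have h5 : lam * t ≤ M * M := Nat.mul_le_mul hllt.le ht1.le
    have h6 : 2 * g ^ 2 ≤ M ^ 2 := by nlinarith
    have h7 : M * M = M ^ 2 := by ring
    omega
  · have h8 : 2 ^ (s0 + lam * t) ≡ 2 ^ s0 [MOD M] := by
      rw [hMa]; exact two_pow_period hodd ha t
    have h9 := h8.add_right (s0 + lam * t)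
    refine h9.trans ?_
    rw [← add_assoc]
    exact ht2

end Pool.Agent.helper76.Fer
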