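import Pool.Agent.helper76.Fer.Asymp
import Pool.Agent.helper76.Fer.Arith
import Pool.Agent.helper76.Fer.Shift

/-!
# Fermat numbers without small divisors
-/

namespace Pool.Agent.helper76.Fer

open Finset

/-- The modulus: a multiple of every `q - 1` with `q ≤ Q` an odd prime. -/
def Md (Q : ℕ) : ℕ := ∏ l ∈ S Q, l ^ Nat.log l Q

lemma prime_of_mem_S {Q l : ℕ} (h : l ∈ S Q) : l.Prime :=
  (Nat.mem_primesLE.mp (mem_filter.mp h).1).2

lemma Md_pos (Q : ℕ) : 0 < Md Q := prod_pos fun _ hl => pow_pos (prime_of_mem_S hl).pos _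

lemma dvd_Md {Q q : ℕ} (hq : q.Prime) (hq2 : q ≠ 2) (hqQ : q ≤ Q) : q - 1 ∣ Md Q := by
  have hq' := hq.two_le
  have h0 : q - 1 ≠ 0 := by omega
  have hsub : (q - 1).primeFactors ⊆ S Q := by
    intro l hl
    obtain ⟨h1, h2, _⟩ := Nat.mem_primeFactors.mp hl
    have h3 : l ≤ q - 1 := Nat.le_of_dvd (by omega) h2
    exact mem_filter.mpr ⟨Nat.mem_primesLE.mpr ⟨by omega, h1⟩, q,
      Nat.mem_primesLE.mpr ⟨hqQ, hq⟩, hq2, h2⟩
  have e : q - 1 = ∏ l ∈ (q - 1).primeFactors, l ^ (q - 1).factorization l := by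
    conv_lhs => rw [← Nat.prod_factorization_pow_eq_self h0]
    rfl
  rw [e, Md]
  refine (prod_dvd_prod_of_dvd _ (fun l => l ^ Nat.log l Q) ?_).trans
    (prod_dvd_prod_of_subset _ _ _ hsub)
  intro l hl
  have h1 := (Nat.mem_primeFactors.mp hl).1
  apply pow_dvd_pow
  have h2 : l ^ (q - 1).factorization l ≤ q - 1 := Nat.ordProj_le l h0
  exact Nat.le_log_of_pow_le h1.one_lt (by omega)

lemma Md_le (Q : ℕ) (hQ : 0 < Q) : Md Q ≤ Q ^ #(S Q) := by
  rw [Md, ← prod_const]
  exact prod_le_prod' fun l _ => Nat.pow_log_le_self l hQ.ne'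

lemma log_Md_le (Q : ℕ) (hQ : 0 < Q) : Real.log (Md Q) ≤ #(S Q) * Real.log Q := by
  have h1 : (Md Q : ℝ) ≤ (Q : ℝ) ^ #(S Q) := by exact_mod_cast Md_le Q hQ
  have h2 := Real.log_le_log (by exact_mod_cast Md_pos Q) h1
  rwa [Real.log_pow] at h2

lemma card_S_le_self (Q : ℕ) : #(S Q) ≤ Q := by
  have : S Q ⊆ Icc 1 Q := by
    intro l hl
    have h := Nat.mem_primesLE.mp (mem_filter.mp hl).1
    exact mem_Icc.mpr ⟨h.2.pos, h.1⟩
  exact (card_le_card this).trans (by simp)

lemma one_le_loglog {K : ℕ} (hK : 16 ≤ K) : 1 ≤ Real.log (Real.log K) := by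
  have h1 : (16 : ℝ) ≤ K := by exact_mod_cast hK
  have h2 : Real.log 16 ≤ Real.log K := Real.log_le_log (by norm_num) h1
  have h3 : Real.log 16 = 4 * Real.log 2 := by
    rw [show (16 : ℝ) = 2 ^ 4 by norm_num, Real.log_pow]; push_cast; ring
  have h4 := Real.log_two_gt_d9
  have h5 := Real.exp_one_lt_d9
  rw [Real.le_log_iff_exp_le (by linarith)]
  linarith

/-- the main bound for the modulus, uniformly for `K ≥ 16`. -/
theorem log_Md_bound : ∃ C : ℝ, 0 < C ∧ ∀ K : ℕ, 16 ≤ K →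
    Real.log (Md K) ≤ C * (K * Real.log (Real.log K) / Real.log K) := by
  obtain ⟨C, hC, T, hT, h⟩ := card_S_asymp
  refine ⟨2 * C + Real.exp T * T, by positivity, ?_⟩
  intro K hK
  have h16 : (16 : ℝ) ≤ K := by exact_mod_cast hK
  have hK0 : (0 : ℝ) < K := by linarith
  have hlog : 0 < Real.log K := Real.log_pos (by linarith)
  have hll := one_le_loglog hK
  have hTpos : 0 ≤ Real.exp T * T := by positivity
  rcases le_or_gt T (Real.log K) with h1 | h1
  · have h2 := h K h1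
    have h3 := log_Md_le K (by omega)
    have h4 : (#(S K) : ℝ) * Real.log K ≤ 2 * C * (K * Real.log (Real.log K) / Real.log K) := by
      have h5 : (#(S K) : ℝ) * Real.log K = (#(S K) : ℝ) * (Real.log K) ^ 2 / Real.log K := by
        field_simp
      rw [h5, ← mul_div_assoc]
      apply div_le_div_of_nonneg_right _ hlog.le
      refine h2.trans ?_
      have : C * K * (1 + Real.log (Real.log K)) ≤ C * K * (2 * Real.log (Real.log K)) := by
        gcongr; linarith
      linarith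
    have h6 : 0 ≤ K * Real.log (Real.log K) / Real.log K := by positivity
    have h7 : 0 ≤ (Real.exp T * T) * (K * Real.log (Real.log K) / Real.log K) := mul_nonneg hTpos h6
    linarith
  · have h3 := log_Md_le K (by omega)
    have h4 : (K : ℝ) ≤ Real.exp T := by
      rw [← Real.exp_log hK0]
      exact Real.exp_le_exp.mpr h1.le
    have h5 : (#(S K) : ℝ) ≤ K := by exact_mod_cast card_S_le_self K
    have h6 : (#(S K) : ℝ) * Real.log K ≤ Real.exp T * T :=
      mul_le_mul (h5.trans h4) h1.le hlog.le (Real.exp_pos _).le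
    have h7 : 1 ≤ K * Real.log (Real.log K) / Real.log K := by
      rw [le_div_iff₀ hlog]
      have h8 : Real.log K ≤ K := (Real.log_le_sub_one_of_pos hK0).trans (by linarith)
      nlinarith
    have h9 : Real.exp T * T ≤ (Real.exp T * T) * (K * Real.log (Real.log K) / Real.log K) :=
      le_mul_of_one_le_right hTpos h7
    have h10 : 0 ≤ 2 * C * (K * Real.log (Real.log K) / Real.log K) := by positivity
    linarith

/-- **Uniform form.** -/
theorem uniform_form : ∃ C : ℝ, 0 < C ∧ ∀ K : ℕ, 16 ≤ K → ∃ M : ℕ, 0 < M ∧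
    (M : ℝ) ≤ Real.exp (C * (K * Real.log (Real.log K) / Real.log K)) ∧
    ∀ m : ℕ, 1 < m → M ∣ m + 1 → ∀ d : ℕ, 1 < d → d ∣ 2 ^ 2 ^ m + 1 → K * 2 ^ (m + 1) < d := by
  obtain ⟨C, hC, h⟩ := log_Md_bound
  refine ⟨C, hC, fun K hK => ⟨Md K, Md_pos K, ?_, ?_⟩⟩
  · have h1 : (0 : ℝ) < Md K := by exact_mod_cast Md_pos K
    rw [← Real.exp_log h1]
    exact Real.exp_le_exp.mpr (h K hK)
  · intro m hm hM d hd1 hd
    exact divisor_large hm (fun q hq hq2 hqK => (dvd_Md hq hq2 hqK).trans hM) hd1 hd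

/-- `K loglog K / log K` is unbounded. -/
lemma choose_K (C : ℝ) (hC : 0 < C) (A : ℝ) : ∃ K : ℕ, 16 ≤ K ∧
    A ≤ C * (K * Real.log (Real.log K) / Real.log K) := by
  obtain ⟨K, hK⟩ := exists_nat_ge (max 16 ((2 * |A| / C) ^ 2))
  have h16 : (16 : ℝ) ≤ K := (le_max_left _ _).trans hK
  have hKA : (2 * |A| / C) ^ 2 ≤ K := (le_max_right _ _).trans hK
  have hK16 : 16 ≤ K := by exact_mod_cast h16
  refine ⟨K, hK16, ?_⟩
  have hll := one_le_loglog hK16
  have hlog : 0 < Real.log K := Real.log_pos (by linarith)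
  have h1 : Real.log K ≤ 2 * Real.sqrt K := by
    have h2 : Real.log K = 2 * Real.log (Real.sqrt K) := by
      rw [Real.log_sqrt (by linarith)]; ring
    rw [h2]
    have h3 : 0 < Real.sqrt K := Real.sqrt_pos.mpr (by linarith)
    have := Real.log_le_sub_one_of_pos h3
    linarith
  have hs : 0 < Real.sqrt K := Real.sqrt_pos.mpr (by linarith)
  have hss : Real.sqrt K * Real.sqrt K = K := Real.mul_self_sqrt (by linarith)
  have h3 : 2 * |A| / C ≤ Real.sqrt K := by
    rw [Real.le_sqrt (by positivity) (by linarith)]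
    exact hKA
  have h4 : Real.sqrt K / 2 ≤ K * Real.log (Real.log K) / Real.log K := by
    rw [div_le_div_iff₀ (by norm_num) hlog]
    have h5 : Real.sqrt K * Real.log K ≤ 2 * K := by nlinarith
    nlinarith
  calc A ≤ |A| := le_abs_self A
    _ = C * ((2 * |A| / C) / 2) := by field_simp
    _ ≤ C * (Real.sqrt K / 2) := by gcongr
    _ ≤ _ := by gcongr

/-- `x / log x` is increasing for `x ≥ e`. -/
lemma div_log_mono {u x : ℝ} (hu : Real.exp 1 ≤ u) (hux : u ≤ x) : u * Real.log x ≤ x * Real.log u := by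
  have hu1 : u ∈ {x : ℝ | Real.exp 1 ≤ x} := hu
  have hx1 : x ∈ {x : ℝ | Real.exp 1 ≤ x} := hu.trans hux
  have h := Real.log_div_self_antitoneOn hu1 hx1 hux
  simp only at h
  have h0 : 0 < u := (Real.exp_pos 1).trans_le hu
  rw [div_le_div_iff₀ (h0.trans_le hux) h0] at h
  linarith

lemma invert (C : ℝ) (hC : 0 < C) : ∃ y₀ : ℝ, ∀ (y : ℝ) (K : ℕ), y₀ ≤ y → 16 ≤ K →
    y ≤ C * (K * Real.log (Real.log K) / Real.log K) →
    1 / (2 * C) * (y * Real.log y / Real.log (Real.log y)) ≤ K := by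
  refine ⟨max (C ^ 2) (Real.exp (Real.exp 1 * 2)), ?_⟩
  intro y K hy hK h
  have hy1 : C ^ 2 ≤ y := (le_max_left _ _).trans hy
  have hy2 : Real.exp (Real.exp 1 * 2) ≤ y := (le_max_right _ _).trans hy
  have hy0 : 0 < y := (Real.exp_pos _).trans_le hy2
  have h16 : (16 : ℝ) ≤ K := by exact_mod_cast hK
  have hK0 : (0 : ℝ) < K := by linarith
  have hlog : 0 < Real.log K := Real.log_pos (by linarith)
  have hll := one_le_loglog hK
  have hll' : Real.log (Real.log K) ≤ Real.log K := by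
    have := Real.log_le_sub_one_of_pos hlog; linarith
  -- y ≤ C K
  have h1 : y ≤ C * K := by
    refine h.trans ?_
    gcongr
    rw [div_le_iff₀ hlog]
    gcongr
  have hly : Real.exp 1 * 2 ≤ Real.log y := (Real.le_log_iff_exp_le hy0).mpr hy2
  have he : 2 ≤ Real.exp 1 := by have := Real.add_one_le_exp (1 : ℝ); linarith
  -- K ≥ √y
  have h2 : y ≤ (K : ℝ) ^ 2 := by
    have h3 : y * y ≤ (C * K) ^ 2 := by
      rw [sq]; exact mul_le_mul h1 h1 hy0.le (by positivity)
    have h4 : (C * K) ^ 2 ≤ y * (K : ℝ) ^ 2 := by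
      rw [mul_pow]; gcongr
    have h5 : y * y ≤ y * (K : ℝ) ^ 2 := h3.trans h4
    exact le_of_mul_le_mul_left h5 hy0
  have h3 : Real.log y / 2 ≤ Real.log K := by
    have := Real.log_le_log hy0 h2
    rw [Real.log_pow] at this
    push_cast at this
    linarith
  have hu : Real.exp 1 ≤ Real.log y / 2 := by linarith
  have h4 := div_log_mono hu h3
  have hlu : 0 < Real.log (Real.log y / 2) := Real.log_pos (by linarith)
  have hlu2 : Real.log (Real.log y / 2) ≤ Real.log (Real.log y) :=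
    Real.log_le_log (by linarith) (by linarith)
  have hlly : 0 < Real.log (Real.log y) := by linarith
  have hlK : 0 < Real.log (Real.log K) := by linarith
  -- (log y / 2) / loglog y ≤ log K / loglog K
  have h5 : Real.log y / 2 / Real.log (Real.log y) ≤ Real.log K / Real.log (Real.log K) := by
    rw [div_le_div_iff₀ hlly hlK]
    refine h4.trans ?_
    gcongr
  have h6 : y * (Real.log K / Real.log (Real.log K)) ≤ C * K := by
    calc y * (Real.log K / Real.log (Real.log K))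
        ≤ C * (K * Real.log (Real.log K) / Real.log K) * (Real.log K / Real.log (Real.log K)) := by
          gcongr
      _ = C * K := by field_simp
  calc 1 / (2 * C) * (y * Real.log y / Real.log (Real.log y))
      = (1 / C) * (y * (Real.log y / 2 / Real.log (Real.log y))) := by
        field_simp
    _ ≤ (1 / C) * (y * (Real.log K / Real.log (Real.log K))) := by gcongr
    _ ≤ (1 / C) * (C * K) := by gcongr
    _ = K := by field_simp

/-- **Fermat numbers.** -/
theorem fermat_form : ∃ c : ℝ, 0 < c ∧ ∀ N : ℕ, ∃ m : ℕ, N < m ∧ ∀ d : ℕ, 1 < d →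
    d ∣ 2 ^ 2 ^ m + 1 →
    c * 2 ^ m * (Real.log m * Real.log (Real.log m) / Real.log (Real.log (Real.log m))) < d := by
  obtain ⟨C, hC, h⟩ := uniform_form
  obtain ⟨y₀, hy₀⟩ := invert (2 * C) (by positivity)
  refine ⟨1 / (2 * C), by positivity, ?_⟩
  intro N
  obtain ⟨N₁, hN₁⟩ := exists_nat_ge (Real.exp y₀)
  set N₂ := N + N₁ + 3 with hN₂
  obtain ⟨K, hK, hA⟩ := choose_K C hC (Real.log N₂)
  obtain ⟨M, hM0, hM, hdiv⟩ := h K hK
  have hMN : N₂ ≤ M * N₂ := Nat.le_mul_of_pos_left _ hM0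
  refine ⟨M * N₂ - 1, by omega, ?_⟩
  set m := M * N₂ - 1 with hm
  have hm1 : m + 1 = M * N₂ := by omega
  intro d hd1 hd
  have h1 := hdiv m (by omega) ⟨N₂, hm1⟩ d hd1 hd
  have hmpos : (0 : ℝ) < m := by exact_mod_cast (by omega : 0 < m)
  have hMpos : (0 : ℝ) < M := by exact_mod_cast hM0
  have hN2pos : (0 : ℝ) < N₂ := by exact_mod_cast (by omega : 0 < N₂)
  have hlogm : Real.log m ≤ 2 * C * (K * Real.log (Real.log K) / Real.log K) := by
    have h2 : (m : ℝ) ≤ M * N₂ := by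
      have : m ≤ M * N₂ := by omega
      exact_mod_cast this
    have h3 := Real.log_le_log hmpos h2
    rw [Real.log_mul hMpos.ne' hN2pos.ne'] at h3
    have h4 : Real.log M ≤ C * (K * Real.log (Real.log K) / Real.log K) := by
      rw [Real.log_le_iff_le_exp hMpos]; exact hM
    linarith
  have hy : y₀ ≤ Real.log m := by
    rw [Real.le_log_iff_exp_le hmpos]
    have : (N₁ : ℝ) ≤ m := by
      have : N₁ ≤ m := by omega
      exact_mod_cast this
    linarith
  have h2 := hy₀ (Real.log m) K hy hK hlogm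
  have h3 : ((K * 2 ^ (m + 1) : ℕ) : ℝ) < d := by exact_mod_cast h1
  refine lt_of_le_of_lt ?_ h3
  push_cast
  calc 1 / (2 * C) * 2 ^ m * (Real.log m * Real.log (Real.log m) / Real.log (Real.log (Real.log m)))
      = 2 ^ (m + 1) * (1 / (2 * (2 * C)) * (Real.log m * Real.log (Real.log m)
        / Real.log (Real.log (Real.log m)))) := by
        rw [pow_succ]; field_simp
    _ ≤ 2 ^ (m + 1) * K := by gcongr
    _ = _ := by ring

/-- **Numbers `n ^ n + 1`.** -/
theorem npown_form : ∃ c : ℝ, 0 < c ∧ ∀ N : ℕ, ∃ s : ℕ, N < s ∧ ∀ d : ℕ, 1 < d →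
    d ∣ (2 ^ 2 ^ s) ^ (2 ^ 2 ^ s) + 1 →
    c * (2 ^ 2 ^ s * 2 ^ s) * (Real.log s * Real.log (Real.log s) / Real.log (Real.log (Real.log s)))
      < d := by
  obtain ⟨C, hC, h⟩ := uniform_form
  obtain ⟨y₀, hy₀⟩ := invert (3 * C) (by positivity)
  refine ⟨1 / (3 * C), by positivity, ?_⟩
  intro N
  obtain ⟨N₁, hN₁⟩ := exists_nat_ge (Real.exp y₀)
  set N₂ := N + N₁ + 3 with hN₂
  obtain ⟨K, hK, hA⟩ := choose_K C hC (Real.log ((N₂ + 3 : ℕ) : ℝ))
  obtain ⟨M, hM0, hM, hdiv⟩ := h K hK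
  have hMN : M ≤ 2 ^ (M + N₂) :=
    Nat.lt_two_pow_self.le.trans (Nat.pow_le_pow_right (by norm_num) (by omega))
  obtain ⟨s, hs1, hs2, hs3⟩ := exists_shift M hM0 (M - 1) (M + N₂) hMN
  refine ⟨s, by omega, ?_⟩
  intro d hd1 hd
  have e : (2 ^ 2 ^ s) ^ (2 ^ 2 ^ s) + 1 = 2 ^ 2 ^ (2 ^ s + s) + 1 := by
    rw [← pow_mul, ← pow_add, add_comm s]
  rw [e] at hd
  have hMd : M ∣ (2 ^ s + s) + 1 := by
    have h2 := hs3.add_right 1
    rw [Nat.sub_add_cancel hM0] at h2
    have h3 : M ≡ 0 [MOD M] := by simp [Nat.ModEq]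
    exact Nat.modEq_zero_iff_dvd.mp (h2.trans h3)
  have h2s : 0 < 2 ^ s := by positivity
  have h1 := hdiv (2 ^ s + s) (by omega) hMd d hd1 hd
  have hspos : (0 : ℝ) < s := by exact_mod_cast (by omega : 0 < s)
  have hMpos : (0 : ℝ) < M := by exact_mod_cast hM0
  have hlogs : Real.log s ≤ 3 * C * (K * Real.log (Real.log K) / Real.log K) := by
    have h2 : s ≤ (N₂ + 3) * M ^ 2 := by
      have h3 : M ≤ M ^ 2 := Nat.le_self_pow (by norm_num) M
      have h4 : N₂ ≤ N₂ * M ^ 2 := Nat.le_mul_of_pos_right _ (by positivity)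
      have h5 : (N₂ + 3) * M ^ 2 = N₂ * M ^ 2 + 3 * M ^ 2 := by ring
      omega
    have h3 : (s : ℝ) ≤ ((N₂ + 3 : ℕ) : ℝ) * (M : ℝ) ^ 2 := by exact_mod_cast h2
    have h4 := Real.log_le_log hspos h3
    have h5 : ((N₂ + 3 : ℕ) : ℝ) ≠ 0 := by positivity
    rw [Real.log_mul h5 (by positivity), Real.log_pow] at h4
    push_cast at h4 hA
    have h6 : Real.log M ≤ C * (K * Real.log (Real.log K) / Real.log K) := by
      rw [Real.log_le_iff_le_exp hMpos]; exact hM
    linarith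
  have hy : y₀ ≤ Real.log s := by
    rw [Real.le_log_iff_exp_le hspos]
    have : (N₁ : ℝ) ≤ s := by
      have : N₁ ≤ s := by omega
      exact_mod_cast this
    linarith
  have h2 := hy₀ (Real.log s) K hy hK hlogs
  have h3 : ((K * 2 ^ (2 ^ s + s + 1) : ℕ) : ℝ) < d := by exact_mod_cast h1
  refine lt_of_le_of_lt ?_ h3
  push_cast
  calc 1 / (3 * C) * (2 ^ 2 ^ s * 2 ^ s) * (Real.log s * Real.log (Real.log s) / Real.log (Real.log (Real.log s)))
      = 2 ^ (2 ^ s + s + 1) * (1 / (2 * (3 * C)) * (Real.log s * Real.log (Real.log s)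
        / Real.log (Real.log (Real.log s)))) := by
        rw [pow_succ, pow_add]; field_simp
    _ ≤ 2 ^ (2 ^ s + s + 1) * K := by gcongr
    _ = _ := by ring

end Pool.Agent.helper76.Fer
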